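import Mathlib
import Pool.Agent.Z15P.Stm

/-!
Integral closure of `k[f]` in a finite (possibly inseparable) extension of `k(f)` is a finite
`k[f]`-module, by dimension counting (proof plan by helper15).
-/

set_option autoImplicit false

open IntermediateField Polynomial
open scoped IntermediateField.algebraAdjoinAdjoin

namespace Pool.Agent.T2h25.Z15P

/-- integral closure of `k[x]` in `K`, as a `k`-subalgebra -/
def BB (k : Type) {K : Type} [Field k] [Field K] [Algebra k K] (x : K) : Subalgebra k K :=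
  (integralClosure (Algebra.adjoin k {x}) K).restrictScalars k

variable {k K : Type} [Field k] [Field K] [Algebra k K]

lemma mem_BB {x b : K} : b ∈ BB k x ↔ IsIntegral (Algebra.adjoin k {x}) b := Iff.rfl

lemma aeval_mem_BB (x : K) (P : k[X]) : aeval x P ∈ BB k x := by
  rw [mem_BB]
  exact isIntegral_algebraMap (R := Algebra.adjoin k {x}) (A := K)
    (x := ⟨aeval x P, aeval_mem_adjoin_singleton k x⟩)

lemma self_mem_BB (x : K) : x ∈ BB k x := by
  simpa using aeval_mem_BB x (X : k[X])

lemma isIntegrallyClosed_adjoin {x : K} (hx : Transcendental k x) :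
    IsIntegrallyClosed (Algebra.adjoin k {x}) := by
  have e := algEquivOfTranscendental k x hx
  exact IsIntegrallyClosed.of_equiv e.toRingEquiv

/-- norms of integral elements are polynomials -/
lemma norm_mem {x : K} (hx : Transcendental k x) (F : IntermediateField k K) (hF : F = k⟮x⟯)
    {b : K} (hb : b ∈ BB k x) :
    ∃ P : k[X], ((Algebra.norm F b : F) : K) = aeval x P := by
  subst hF
  haveI := isIntegrallyClosed_adjoin hx
  have h := Algebra.isIntegral_norm (K := k⟮x⟯) (R := Algebra.adjoin k {x}) (mem_BB.mp hb)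
  obtain ⟨y, hy⟩ := IsIntegrallyClosed.algebraMap_eq_of_integral h
  have hy2 : ∀ z ∈ Algebra.adjoin k {x}, ∃ P : k[X], aeval x P = z := by
    intro z hz
    rw [Algebra.adjoin_singleton_eq_range_aeval] at hz
    exact hz
  obtain ⟨P, hP⟩ := hy2 y y.2
  refine ⟨P, ?_⟩
  rw [← hy, algebraAdjoinAdjoin.coe_algebraMap]
  exact hP.symm

/-- the filtration -/
def L (k : Type) {K : Type} [Field k] [Field K] [Algebra k K] (f : K) (m : ℕ) : Submodule k K :=
  Subalgebra.toSubmodule (BB k f) ⊓
    (Subalgebra.toSubmodule (BB k f⁻¹)).comap (LinearMap.mulLeft k (f⁻¹ ^ m * f))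

lemma mem_L {f b : K} {m : ℕ} :
    b ∈ L k f m ↔ b ∈ BB k f ∧ f⁻¹ ^ m * f * b ∈ BB k f⁻¹ := by
  rw [L, Submodule.mem_inf, Submodule.mem_comap, LinearMap.mulLeft_apply,
    Subalgebra.mem_toSubmodule, Subalgebra.mem_toSubmodule]

lemma transc_inv {f : K} (hf : Transcendental k f) : Transcendental k f⁻¹ := by
  intro h
  exact hf (by simpa using h.inv)

lemma adjoin_inv (f : K) : k⟮f⁻¹⟯ = k⟮f⟯ := by
  apply le_antisymm
  · rw [adjoin_simple_le_iff]
    exact inv_mem (mem_adjoin_simple_self k f)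
  · rw [adjoin_simple_le_iff]
    have := inv_mem (mem_adjoin_simple_self k f⁻¹)
    rwa [inv_inv] at this

lemma ne_zero_of_transc {f : K} (hf : Transcendental k f) : f ≠ 0 := by
  rintro rfl
  exact hf isAlgebraic_zero

lemma no_id {f : K} (hf : Transcendental k f) {P Q : k[X]} {n : ℕ} (hn : 0 < n) (hP : P ≠ 0)
    (h : aeval f P = f⁻¹ ^ n * aeval f⁻¹ Q) : False := by
  have h0 := ne_zero_of_transc hf
  let _ : Invertible (f⁻¹) := invertibleOfNonzero (inv_ne_zero h0)
  have e1 := eval₂_reverse_mul_pow (algebraMap k K) f⁻¹ Q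
  rw [invOf_eq_inv, inv_inv] at e1
  have e2 : aeval f (P * X ^ (n + Q.natDegree)) = aeval f (reverse Q) := by
    rw [map_mul, h, map_pow, aeval_X, aeval_def, aeval_def, ← e1, inv_pow, inv_pow, pow_add]
    field_simp
  have e3 : P * X ^ (n + Q.natDegree) = reverse Q :=
    (transcendental_iff_injective.mp hf) e2
  have e4 := congrArg natDegree e3
  rw [natDegree_mul_X_pow _ hP] at e4
  have e5 := reverse_natDegree_le Q
  omega

lemma L_zero {f : K} (hf : Transcendental k f) [FiniteDimensional k⟮f⟯ K] : L k f 0 = ⊥ := by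
  rw [eq_bot_iff]
  intro b hb
  rw [mem_L, pow_zero, one_mul] at hb
  by_contra hb0
  have hb0 : b ≠ 0 := hb0
  obtain ⟨hb1, hb2⟩ := hb
  obtain ⟨P, hP⟩ := norm_mem hf k⟮f⟯ rfl hb1
  have h0 := ne_zero_of_transc hf
  obtain ⟨Q, hQ⟩ := norm_mem (transc_inv hf) k⟮f⟯ (adjoin_inv f).symm hb2
  have e1 : f * b = (algebraMap k⟮f⟯ K (AdjoinSimple.gen k f)) * b := by
    rw [AdjoinSimple.algebraMap_gen]
  rw [e1, map_mul, Algebra.norm_algebraMap] at hQ
  have e2 : ((Algebra.norm k⟮f⟯ b : k⟮f⟯) : K) ≠ 0 := by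
    have := (Algebra.norm_ne_zero_iff (R := k⟮f⟯) (S := K) (x := b)).mpr hb0
    exact_mod_cast this
  refine no_id hf (P := P) (Q := Q) (n := Module.finrank k⟮f⟯ K) Module.finrank_pos ?_ ?_
  · rintro rfl
    rw [map_zero] at hP
    exact e2 hP
  · rw [← hP, ← hQ]
    push_cast
    rw [AdjoinSimple.coe_gen, ← mul_assoc, ← mul_pow, inv_mul_cancel₀ h0, one_pow, one_mul]

lemma L_mono_succ (f : K) (_hf0 : f ≠ 0) (m : ℕ) : L k f m ≤ L k f (m + 1) := by
  intro b hb
  rw [mem_L] at hb ⊢
  refine ⟨hb.1, ?_⟩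
  have : f⁻¹ ^ (m + 1) * f * b = f⁻¹ * (f⁻¹ ^ m * f * b) := by rw [pow_succ]; ring
  rw [this]
  exact mul_mem (self_mem_BB _) hb.2

lemma L_mono (f : K) (hf0 : f ≠ 0) : Monotone (L k f) :=
  monotone_nat_of_le_succ (L_mono_succ f hf0)

/-- every element of `k(f)` is a quotient of polynomials in `f⁻¹` -/
lemma exists_div (f : K) (r : k⟮f⟯) : ∃ P Q : k[X], aeval f⁻¹ Q ≠ 0 ∧
    (r : K) * aeval f⁻¹ Q = aeval f⁻¹ P := by
  have hr : (r : K) ∈ k⟮f⁻¹⟯ := by rw [adjoin_inv]; exact r.2
  obtain ⟨P, Q, h⟩ := (mem_adjoin_simple_iff k _).mp hr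
  by_cases hQ : aeval f⁻¹ Q = 0
  · refine ⟨0, 1, by simp, ?_⟩
    rw [h, hQ]; simp
  · exact ⟨P, Q, hQ, by rw [h, div_mul_cancel₀ _ hQ]⟩

lemma poly_rel {f : K} (hf0 : f ≠ 0) {m : ℕ} {ι : Type} [Fintype ι] {b : ι → K}
    (hb : ∀ i, b i ∈ L k f (m + 1))
    (hli : ∀ c : ι → k, ∑ i, c i • b i ∈ L k f m → ∀ i, c i = 0)
    (P : ι → k[X]) (hP : ∑ i, aeval f⁻¹ (P i) * b i = 0) (i : ι) : (P i).coeff 0 = 0 := by
  refine hli (fun i => (P i).coeff 0) ?_ i
  have e1 : ∑ i, (P i).coeff 0 • b i = - ∑ i, f⁻¹ * aeval f⁻¹ (P i).divX * b i := by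
    rw [eq_neg_iff_add_eq_zero, ← hP, ← Finset.sum_add_distrib]
    refine Finset.sum_congr rfl fun i _ => ?_
    conv_rhs => rw [← X_mul_divX_add (P i), map_add, map_mul, aeval_X, aeval_C]
    rw [Algebra.smul_def]
    ring
  rw [mem_L]
  constructor
  · exact sum_mem fun i _ => Subalgebra.smul_mem _ (mem_L.mp (hb i)).1 _
  · rw [e1, mul_neg, Finset.mul_sum]
    refine neg_mem (sum_mem fun i _ => ?_)
    have : f⁻¹ ^ m * f * (f⁻¹ * aeval f⁻¹ (P i).divX * b i) =
      aeval f⁻¹ (P i).divX * (f⁻¹ ^ (m + 1) * f * b i) := by rw [pow_succ]; ring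
    rw [this]
    exact mul_mem (aeval_mem_BB _ _) (mem_L.mp (hb i)).2

lemma poly_rel_zero {f : K} (hf0 : f ≠ 0) {m : ℕ} {ι : Type} [Fintype ι] {b : ι → K}
    (hb : ∀ i, b i ∈ L k f (m + 1))
    (hli : ∀ c : ι → k, ∑ i, c i • b i ∈ L k f m → ∀ i, c i = 0)
    (P : ι → k[X]) (hP : ∑ i, aeval f⁻¹ (P i) * b i = 0) (i : ι) : P i = 0 := by
  have key : ∀ N : ℕ, ∀ i, X ^ N ∣ P i := by
    intro N
    induction N with
    | zero => intro i; simp
    | succ N ih =>
      choose Q hQ using ih
      have h2 : ∑ i, aeval f⁻¹ (Q i) * b i = 0 := by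
        have h3 : f⁻¹ ^ N * ∑ i, aeval f⁻¹ (Q i) * b i = 0 := by
          rw [← hP, Finset.mul_sum]
          refine Finset.sum_congr rfl fun i _ => ?_
          rw [hQ i, map_mul, map_pow, aeval_X]
          ring
        exact (mul_eq_zero.mp h3).resolve_left (pow_ne_zero _ (inv_ne_zero hf0))
      intro i
      have h4 := poly_rel hf0 hb hli Q h2 i
      obtain ⟨R, hR⟩ := X_dvd_iff.mpr h4
      exact ⟨R, by rw [hQ i, hR, pow_succ]; ring⟩
  by_contra h0
  have h1 := natDegree_le_of_dvd (key ((P i).natDegree + 1) i) h0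
  rw [natDegree_X_pow] at h1
  omega

lemma li_of_mod {f : K} (hf : Transcendental k f) {m : ℕ} {ι : Type} [Fintype ι]
    {b : ι → K} (hb : ∀ i, b i ∈ L k f (m + 1))
    (hli : ∀ c : ι → k, ∑ i, c i • b i ∈ L k f m → ∀ i, c i = 0) :
    LinearIndependent k⟮f⟯ b := by
  classical
  have hf0 := ne_zero_of_transc hf
  rw [Fintype.linearIndependent_iff]
  intro r hr i
  choose P Q hQ hPQ using fun i => exists_div (k := k) f (r i)
  -- common denominators
  set P' : ι → k[X] := fun i => P i * ∏ j ∈ Finset.univ.erase i, Q j with hP'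
  have h1 : ∀ i, aeval f⁻¹ (P' i) = (r i : K) * ∏ j, aeval f⁻¹ (Q j) := by
    intro i
    rw [hP']
    simp only
    rw [map_mul, ← hPQ i, map_prod, mul_assoc, Finset.mul_prod_erase Finset.univ
      (fun j => aeval f⁻¹ (Q j)) (Finset.mem_univ i)]
  have h2 : ∑ i, aeval f⁻¹ (P' i) * b i = 0 := by
    have : ∑ i, aeval f⁻¹ (P' i) * b i = (∏ j, aeval f⁻¹ (Q j)) * ∑ i, r i • b i := by
      rw [Finset.mul_sum]
      refine Finset.sum_congr rfl fun i _ => ?_
      rw [h1 i, IntermediateField.smul_def, smul_eq_mul]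
      ring
    rw [this, hr, mul_zero]
  have h3 := poly_rel_zero hf0 hb hli P' h2 i
  have h4 := h1 i
  rw [h3, map_zero] at h4
  have h5 := (mul_eq_zero.mp h4.symm).resolve_right (Finset.prod_ne_zero_iff.mpr fun j _ => hQ j)
  exact_mod_cast h5

lemma rank_L {f : K} (hf : Transcendental k f) [FiniteDimensional k⟮f⟯ K] (m : ℕ) :
    Module.rank k (L k f m) ≤ ((Module.finrank k⟮f⟯ K * m : ℕ) : Cardinal) := by
  have hf0 := ne_zero_of_transc hf
  induction m with
  | zero =>
    rw [L_zero hf]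
    simp
  | succ m ih =>
    have hle := L_mono_succ (k := k) f hf0 m
    rw [← Submodule.rank_quotient_add_rank ((L k f m).comap (L k f (m+1)).subtype),
      (Submodule.comapSubtypeEquivOfLe hle).rank_eq]
    have h2 : Module.rank k (L k f (m+1) ⧸ (L k f m).comap (L k f (m+1)).subtype) ≤
        ((Module.finrank k⟮f⟯ K : ℕ) : Cardinal) := by
      refine rank_le fun s hs => ?_
      choose b hb using fun x : s => Submodule.mkQ_surjective
        ((L k f m).comap (L k f (m+1)).subtype) x.1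
      have hli : LinearIndependent k⟮f⟯ (fun x : s => (b x : K)) := by
        refine li_of_mod hf (m := m) (fun x => (b x).2) ?_
        intro c hc
        rw [Fintype.linearIndependent_iff] at hs
        apply hs c
        have : ∑ i, c i • b i ∈ (L k f m).comap (L k f (m+1)).subtype := by
          rw [Submodule.mem_comap, map_sum]
          simpa using hc
        rw [← Submodule.Quotient.mk_eq_zero, ← Submodule.mkQ_apply, map_sum] at this
        simpa [hb] using this
      have := hli.fintype_card_le_finrank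
      simpa using this
    calc _ ≤ ((Module.finrank k⟮f⟯ K : ℕ) : Cardinal) + ((Module.finrank k⟮f⟯ K * m : ℕ) : Cardinal) :=
          add_le_add h2 ih
      _ = _ := by push_cast; ring

/-- elements of `k[f]` times a power of `f⁻¹` lie in `k[f⁻¹]` -/
lemma exists_pow_mul {f : K} (hf0 : f ≠ 0) {y : K} (hy : y ∈ Algebra.adjoin k {f}) :
    ∃ N : ℕ, f⁻¹ ^ N * y ∈ Algebra.adjoin k {f⁻¹} := by
  rw [Algebra.adjoin_singleton_eq_range_aeval] at hy
  obtain ⟨R, hR⟩ := hy
  have hR : aeval f R = y := hR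
  let _ : Invertible f := invertibleOfNonzero hf0
  have e1 := eval₂_reverse_mul_pow (algebraMap k K) f R
  rw [invOf_eq_inv, ← aeval_def, ← aeval_def, hR] at e1
  refine ⟨R.natDegree, ?_⟩
  have : f⁻¹ ^ R.natDegree * y = aeval f⁻¹ (reverse R) := by
    rw [← e1, mul_comm, mul_assoc, ← mul_pow, mul_inv_cancel₀ hf0, one_pow, mul_one]
  rw [this]
  exact aeval_mem_adjoin_singleton k _

lemma exists_L {f : K} (hf0 : f ≠ 0) {b : K} (hb : b ∈ BB k f) : ∃ m, b ∈ L k f m := by
  classical
  obtain ⟨p, hp, hpb⟩ := mem_BB.mp hb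
  choose N hN using fun i => exists_pow_mul (k := k) hf0 (p.coeff i).2
  set M := p.support.sup N with hM
  set P : K[X] := p.map (algebraMap (Algebra.adjoin k {f}) K) with hP
  have hPm : P.Monic := hp.map _
  set Q : K[X] := scaleRoots P (f⁻¹ ^ M) with hQ
  have hQm : Q.Monic := (monic_scaleRoots_iff _).mpr hPm
  have hroot : eval (f⁻¹ ^ M * b) Q = 0 := by
    have h1 : eval₂ (RingHom.id K) b P = 0 := by
      rw [hP, eval₂_map]
      simpa using hpb
    exact scaleRoots_eval₂_eq_zero (RingHom.id K) (s := f⁻¹ ^ M) h1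
  have hfinv : f⁻¹ ∈ Algebra.adjoin k {f⁻¹} := Algebra.self_mem_adjoin_singleton k _
  have hcoef : ∀ i, Q.coeff i ∈ Algebra.adjoin k {f⁻¹} := by
    intro i
    rw [hQ, coeff_scaleRoots]
    by_cases hi : i ∈ p.support
    · rcases lt_or_ge i P.natDegree with h | h
      · obtain ⟨e, he⟩ : ∃ e, P.natDegree - i = e + 1 := ⟨P.natDegree - i - 1, by omega⟩
        obtain ⟨e2, he2⟩ := Nat.exists_eq_add_of_le (Finset.le_sup (f := N) hi)
        rw [he, hP, coeff_map]
        have : algebraMap (Algebra.adjoin k {f}) K (p.coeff i) * (f⁻¹ ^ M) ^ (e + 1) =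
            (f⁻¹ ^ N i * (p.coeff i : K)) * (f⁻¹ ^ e2 * (f⁻¹ ^ M) ^ e) := by
          have h8 : (f⁻¹ ^ M : K) = f⁻¹ ^ N i * f⁻¹ ^ e2 := by rw [← pow_add, ← he2]
          have h9 : algebraMap (Algebra.adjoin k {f}) K (p.coeff i) = (p.coeff i : K) := rfl
          rw [pow_succ, h9]
          nth_rewrite 2 [h8]
          ring
        rw [this]
        exact mul_mem (hN i) (mul_mem (pow_mem hfinv _) (pow_mem (pow_mem hfinv _) _))
      · rw [Nat.sub_eq_zero_of_le h, pow_zero, mul_one]
        have hi2 : P.coeff i ≠ 0 := by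
          rw [hP, coeff_map]
          have h3 := mem_support_iff.mp hi
          intro h4
          apply h3
          exact Subtype.ext h4
        have h5 : i = P.natDegree := le_antisymm (le_natDegree_of_ne_zero hi2) h
        rw [h5, coeff_natDegree, hPm.leadingCoeff]
        exact one_mem _
    · rw [hP, coeff_map, notMem_support_iff.mp hi, map_zero, zero_mul]
      exact zero_mem _
  have hint : IsIntegral (Algebra.adjoin k {f⁻¹}) (f⁻¹ ^ M * b) := by
    have hs : (↑Q.coeffs : Set K) ⊆ (Algebra.adjoin k {f⁻¹}).toSubring := by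
      intro y hy
      obtain ⟨n, hn, rfl⟩ := mem_coeffs_iff.mp (by exact_mod_cast hy)
      exact hcoef n
    refine ⟨toSubring Q (Algebra.adjoin k {f⁻¹}).toSubring hs,
      (monic_toSubring _ _ _).mpr hQm, ?_⟩
    have h6 : (toSubring Q (Algebra.adjoin k {f⁻¹}).toSubring hs).map
        (Algebra.adjoin k {f⁻¹}).toSubring.subtype = Q := by
      ext n
      rw [coeff_map]
      exact coeff_toSubring _ _ _
    have h10 : eval (f⁻¹ ^ M * b) ((toSubring Q (Algebra.adjoin k {f⁻¹}).toSubring hs).map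
        (Algebra.adjoin k {f⁻¹}).toSubring.subtype) = 0 := by rw [h6, hroot]
    rw [eval_map] at h10
    exact h10
  refine ⟨M + 1, mem_L.mpr ⟨hb, ?_⟩⟩
  have : f⁻¹ ^ (M + 1) * f * b = f⁻¹ ^ M * b := by
    rw [pow_succ, mul_assoc (f⁻¹ ^ M), inv_mul_cancel₀ hf0, mul_one]
  rw [this]
  exact hint

lemma f_pow_mul_mem {f : K} (hf0 : f ≠ 0) {z : K} {c i : ℕ} (hz : z ∈ L k f c) :
    f ^ i * z ∈ L k f (c + i) := by
  rw [mem_L] at hz ⊢
  refine ⟨mul_mem (pow_mem (self_mem_BB _) _) hz.1, ?_⟩
  have : f⁻¹ ^ (c + i) * f * (f ^ i * z) = f⁻¹ ^ c * f * z := by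
    rw [pow_add, inv_pow f i]
    field_simp
  rw [this]
  exact hz.2

theorem main (f : K) (hf : Transcendental k f) [FiniteDimensional k⟮f⟯ K] :
    Module.Finite (Algebra.adjoin k {f}) (integralClosure (Algebra.adjoin k {f}) K) := by
  classical
  have hf0 := ne_zero_of_transc hf
  obtain ⟨s, z, hz⟩ := FiniteDimensional.exists_is_basis_integral (Algebra.adjoin k {f}) k⟮f⟯ K
  set z' : s → integralClosure (Algebra.adjoin k {f}) K := fun i => ⟨z i, hz i⟩ with hz'
  set M0 : Submodule (Algebra.adjoin k {f}) (integralClosure (Algebra.adjoin k {f}) K) :=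
    Submodule.span (Algebra.adjoin k {f}) (Set.range z') with hM0
  -- all z in L c
  choose cz hcz using fun i => exists_L (k := k) hf0 (hz i)
  set c := Finset.univ.sup cz with hc
  have hzc : ∀ i, z i ∈ L k f c := fun i =>
    L_mono f hf0 (Finset.le_sup (f := cz) (Finset.mem_univ i)) (hcz i)
  have hrank : Module.rank k (integralClosure (Algebra.adjoin k {f}) K ⧸ M0) ≤
      ((Module.finrank k⟮f⟯ K * c : ℕ) : Cardinal) := by
    refine rank_le fun t ht => ?_
    choose x hx using fun y : t => Submodule.mkQ_surjective M0 y.1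
    choose cx hcx using fun y : t => exists_L (k := k) hf0 (x y).2
    set m := max c (Finset.univ.sup cx) with hm
    have hxm : ∀ y, (x y : K) ∈ L k f m := fun y =>
      L_mono f hf0 ((Finset.le_sup (f := cx) (Finset.mem_univ y)).trans (le_max_right _ _)) (hcx y)
    have hcm : c ≤ m := le_max_left _ _
    -- linear independence in `K`
    have hli1 : LinearIndependent k
        (fun p : Fin (m - c) × s => (AdjoinSimple.gen k f) ^ (p.1 : ℕ) • z p.2) := by
      refine linearIndependent_smul (b := fun i : Fin (m - c) => (AdjoinSimple.gen k f) ^ (i : ℕ))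
        ?_ z.linearIndependent
      have hg : Transcendental k (AdjoinSimple.gen k f) := by
        intro h
        exact hf (by simpa using h.algebraMap (A := K))
      have h0 := ((Polynomial.basisMonomials k).linearIndependent.comp
        (fun i : Fin (m - c) => (i : ℕ)) Fin.val_injective).map'
        (aeval (R := k) (AdjoinSimple.gen k f)).toLinearMap
        (LinearMap.ker_eq_bot.mpr (transcendental_iff_injective.mp hg))
      have h11 : (fun i : Fin (m - c) => (AdjoinSimple.gen k f) ^ (i : ℕ)) =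
          (⇑(aeval (R := k) (AdjoinSimple.gen k f)).toLinearMap ∘ ⇑(basisMonomials k) ∘
            fun i : Fin (m - c) => (i : ℕ)) := by
        funext i
        simp [Polynomial.aeval_monomial]
      rw [h11]
      exact h0
    let fA : Algebra.adjoin k {f} := ⟨f, Algebra.self_mem_adjoin_singleton k f⟩
    let w : Fin (m - c) × s → (M0.restrictScalars k) := fun p =>
      ⟨fA ^ (p.1 : ℕ) • z' p.2, M0.smul_mem _ (Submodule.subset_span ⟨p.2, rfl⟩)⟩
    let vk : integralClosure (Algebra.adjoin k {f}) K →ₗ[k] K :=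
      ((integralClosure (Algebra.adjoin k {f}) K).val.toLinearMap).restrictScalars k
    have hvk : ∀ y, vk y = (y : K) := fun y => rfl
    have hw : LinearIndependent k w := by
      refine LinearIndependent.of_comp (vk ∘ₗ (M0.restrictScalars k).subtype) ?_
      exact hli1
    have hx2 : LinearIndependent k (Submodule.Quotient.mk (p := M0.restrictScalars k) ∘ x) := by
      refine LinearIndependent.of_comp
        (Submodule.Quotient.restrictScalarsEquiv k M0).toLinearMap ?_
      have : (⇑(Submodule.Quotient.restrictScalarsEquiv k M0).toLinearMap ∘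
          Submodule.Quotient.mk (p := M0.restrictScalars k) ∘ x) = fun y : t => y.1 := by
        funext y
        exact hx y
      rw [this]
      exact ht
    have hsum := hw.sumElim_of_quotient x hx2
    have hsumK := hsum.map' vk (LinearMap.ker_eq_bot.mpr Subtype.val_injective)
    have hmem : ∀ i, (vk ∘ Sum.elim (fun i => ((w i : M0.restrictScalars k) :
        integralClosure (Algebra.adjoin k {f}) K)) x) i ∈ L k f m := by
      rintro (⟨i, j⟩ | y)
      · have h1 := f_pow_mul_mem hf0 (i := (i : ℕ)) (hzc j)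
        exact L_mono f hf0 (by omega) h1
      · exact hxm y
    have hLi : LinearIndependent k (fun i => (⟨_, hmem i⟩ : L k f m)) :=
      LinearIndependent.of_comp (L k f m).subtype hsumK
    have h7 := hLi.cardinal_le_rank.trans (rank_L hf m)
    rw [Cardinal.mk_fintype, Nat.cast_le] at h7
    have h8 : Module.finrank k⟮f⟯ K = Fintype.card s := Module.finrank_eq_card_basis z
    rw [Fintype.card_sum, Fintype.card_prod, Fintype.card_fin, Fintype.card_coe t, h8] at h7
    rw [h8]
    obtain ⟨d, hd⟩ := Nat.exists_eq_add_of_le hcm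
    rw [hd, Nat.add_sub_cancel_left] at h7
    nlinarith
  have hfin : Module.Finite k (integralClosure (Algebra.adjoin k {f}) K ⧸ M0) := by
    rw [← Module.rank_lt_aleph0_iff]
    exact hrank.trans_lt (Cardinal.natCast_lt_aleph0)
  haveI : Module.Finite (Algebra.adjoin k {f})
      (integralClosure (Algebra.adjoin k {f}) K ⧸ M0) :=
    Module.Finite.of_restrictScalars_finite k _ _
  haveI : Module.Finite (Algebra.adjoin k {f}) M0 :=
    Module.Finite.span_of_finite _ (Set.finite_range z')
  exact Module.Finite.of_submodule_quotient M0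

/-- **`P_IC`** -/
theorem t_IC : Pool.Agent.Z15P.P_IC := by
  intro k K _ _ _ f hf hfin
  exact main f hf

end Pool.Agent.T2h25.Z15P
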